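import Pool.Agent.ASO.StmtsH

/-!
# Squad ASO, row HLNK: the central character at `f_c` and the number `gv`

Author: helper32.
-/

open scoped BigOperators

noncomputable section

namespace Pool.Agent.PP.SO.H32

open Pool.Agent.Helper51_AWC Pool.Agent.Helper79_WRA Pool.Agent.PP Pool.Agent.PP.KF
open Pool.Agent.PP.K9 Pool.Agent.PP.K9.H97 Pool.Agent.PP.H75 Pool.Agent.PP.T3

attribute [local instance] Ideal.Quotient.field

section gen

variable {G : Type} [Group G]

theorem cent_zpowers (u : G) :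
    Subgroup.centralizer ((Subgroup.zpowers u : Subgroup G) : Set G) = Cu u := by
  rw [Subgroup.zpowers_eq_closure, Subgroup.centralizer_closure]

theorem cent_bot : Subgroup.centralizer (((⊥ : Subgroup G)) : Set G) = ⊤ := by
  rw [eq_top_iff]
  intro x _
  rw [Subgroup.mem_centralizer_iff]
  intro y hy
  have hy1 : y = 1 := hy
  rw [hy1, one_mul, mul_one]

theorem sum_ext0 (C : Subgroup G) (f : C → ℂ) (φ : G → ℂ) :
    ∑ᶠ g, PP.ext0 C f g * φ g = ∑ᶠ c : C, f c * φ c := by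
  have h1 : ∑ᶠ c : C, f c * φ c = ∑ᶠ c : (C : Set G), PP.ext0 C f c * φ c := by
    refine finsum_congr fun c => ?_
    have h2 : PP.ext0 C f (c : G) = f c := by
      unfold PP.ext0
      exact dif_pos c.2
    rw [h2]
  rw [h1, finsum_set_coe_eq_finsum_mem (s := (C : Set G)) (f := fun g => PP.ext0 C f g * φ g),
    finsum_mem_def]
  refine finsum_congr fun g => ?_
  by_cases hg : g ∈ (C : Set G)
  · rw [Set.indicator_of_mem hg]
  · rw [Set.indicator_of_notMem hg]
    have h2 : PP.ext0 C f g = 0 := by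
      unfold PP.ext0
      exact dif_neg hg
    rw [h2, zero_mul]

/-- the sum over the conjugates -/
theorem sum_conj (φ χ : G → ℂ) (hχ : ∀ g h : G, χ (h * g * h⁻¹) = χ g) (u z : G) :
    ∑ᶠ g, φ (u⁻¹ * (z⁻¹ * g * z)) * χ g = ∑ᶠ h, φ h * χ (u * h) := by
  let E : G ≃ G :=
    { toFun := fun h => z * (u * h) * z⁻¹
      invFun := fun g => u⁻¹ * (z⁻¹ * g * z)
      left_inv := fun h => by group
      right_inv := fun g => by group }
  rw [← finsum_comp_equiv E]
  refine finsum_congr fun h => ?_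
  have h1 : u⁻¹ * (z⁻¹ * (E h) * z) = h := E.left_inv h
  rw [h1]
  have h2 : E h = z * (u * h) * z⁻¹ := rfl
  rw [h2, hχ]

theorem sum_avg [Finite G] (K : Subgroup G) (hK : K = ⊤) (k : ℂ) (φ χ : G → ℂ)
    (hχ : ∀ g h : G, χ (h * g * h⁻¹) = χ g) (u : G) :
    ∑ᶠ g, (k * ∑ᶠ z : K, φ (u⁻¹ * ((z : G)⁻¹ * g * z))) * χ g =
      k * (Nat.card G * ∑ᶠ h, φ h * χ (u * h)) := by
  classical
  have := Fintype.ofFinite G
  have := Fintype.ofFinite K
  have h0 : ∀ g, (k * ∑ᶠ z : K, φ (u⁻¹ * ((z : G)⁻¹ * g * z))) * χ g =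
      ∑ z : K, k * (φ (u⁻¹ * ((z : G)⁻¹ * g * z)) * χ g) := by
    intro g
    rw [finsum_eq_sum_of_fintype, Finset.mul_sum, Finset.sum_mul]
    exact Finset.sum_congr rfl fun z _ => by ring
  rw [finsum_congr h0, finsum_eq_sum_of_fintype, Finset.sum_comm]
  have h1 : ∀ z : K, ∑ g : G, k * (φ (u⁻¹ * ((z : G)⁻¹ * g * z)) * χ g) =
      k * ∑ᶠ h, φ h * χ (u * h) := by
    intro z
    rw [← Finset.mul_sum, ← finsum_eq_sum_of_fintype, sum_conj φ χ hχ u z]
  rw [Finset.sum_congr rfl fun z _ => h1 z, Finset.sum_const, Finset.card_univ,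
    ← Nat.card_eq_fintype_card, nsmul_eq_mul]
  have h2 : Nat.card K = Nat.card G := by
    rw [hK, Subgroup.card_top]
  rw [h2]
  ring

end gen

section blk

variable {V₀ G : Type} [CommGroup V₀] [Group G] {M : Ideal (integralClosure ℤ ℂ)} [M.IsMaximal]

theorem C_zpowers (B : Bk (FF M) V₀ G) (c : V₀) :
    B.C (Subgroup.zpowers c) = Cu (B.i c) := by
  unfold Bk.C
  rw [MonoidHom.map_zpowers, cent_zpowers]

theorem C_bot (B : Bk (FF M) V₀ G) : B.C ⊥ = ⊤ := by
  unfold Bk.C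
  rw [Subgroup.map_bot, cent_bot]

theorem lc_of {F : Type} [Field F] {e g b : G → F} {V X : Subgroup G} {u : G} (hX : X = Cu u)
    (h1 : Bx X b) (h2 : mulF (fun t : X => e t) (fun t : X => b t) = fun t : X => b t)
    (h3 : mulF (br V b) g = g) : Lc e V g u b := by
  subst hX
  exact ⟨h1, h2, h3⟩

end blk

theorem hlnk : HLnkStmt := by
  intro ℓ _ M _ hℓ V₀ _ _ E₀ G _ _ B hB c
  have hC : B.C (Subgroup.zpowers c) = Cu (B.i c) := C_zpowers B c
  refine ⟨hC.symm, ?_, fun χ hχ => ?_⟩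
  · exact lc_of hC (hB.lb _).blk (hB.lb _).und (hB.lb _).gam
  · have hcl : ∀ g h : G, χ (h * g * h⁻¹) = χ g := fun g h => irr_conj hχ g h
    have h1 : ∑ᶠ g, fc B ⊥ c g * χ g = (Nat.card (B.C (Subgroup.zpowers c)) : ℂ)⁻¹ *
        (Nat.card G * ∑ᶠ h, bh B (Subgroup.zpowers c) h * χ (B.i c * h)) := by
      have h2 := sum_avg (B.C ⊥) (C_bot B) (Nat.card (B.C (Subgroup.zpowers c)) : ℂ)⁻¹
        (bh B (Subgroup.zpowers c)) χ hcl (B.i c)
      rw [← h2]
      refine finsum_congr fun g => ?_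
      unfold fc
      rw [bot_sup_eq]
    have h3 : ∑ᶠ h, bh B (Subgroup.zpowers c) h * χ (B.i c * h) =
        gv M (Cu (B.i c)) (B.i c) (B.b (Subgroup.zpowers c)) χ := by
      rw [← hC]
      exact sum_ext0 _ _ _
    unfold cv
    rw [h1, h3]
    by_cases h0 : (Nat.card (B.C (Subgroup.zpowers c)) : ℂ) = 0
    · rw [h0]; simp
    · by_cases h4 : χ 1 = 0
      · rw [h4]; simp
      · field_simp

end Pool.Agent.PP.SO.H32
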