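import Pool.Agent.ASO.StmtsH

/-!
# Squad ASO, row HIXE: the inertial index

Author: helper32.
-/

open scoped BigOperators

noncomputable section

namespace Pool.Agent.PP.SO.H32

open Pool.Agent.Helper51_AWC Pool.Agent.Helper79_WRA Pool.Agent.PP Pool.Agent.PP.KF
open Pool.Agent.PP.K9 Pool.Agent.PP.K9.H97 Pool.Agent.PP.H75 Pool.Agent.PP.T3

attribute [local instance] Ideal.Quotient.field

section gen

variable {V₀ G : Type} [CommGroup V₀] [Group G]

/-- the homomorphism `T → E₀` -/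
theorem exists_hom (i : V₀ →* G) (hi : Function.Injective i) (E₀ : Subgroup (MulAut V₀))
    (T : Subgroup G) (hact : ∀ t ∈ T, ∃ σ ∈ E₀, ∀ v, t * i v * t⁻¹ = i (σ v))
    (hsur : ∀ σ ∈ E₀, ∃ t ∈ T, ∀ v, t * i v * t⁻¹ = i (σ v)) :
    ∃ θ : T →* E₀, Function.Surjective θ ∧
      ∀ (t : T) (v : V₀), (t : G) * i v * (t : G)⁻¹ = i ((θ t : MulAut V₀) v) := by
  choose f hf hfv using hact
  have huniq : ∀ σ τ : MulAut V₀, (∀ v, i (σ v) = i (τ v)) → σ = τ := by
    intro σ τ h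
    ext v
    exact hi (h v)
  let θ : T →* E₀ := MonoidHom.mk' (fun t => ⟨f t.1 t.2, hf t.1 t.2⟩) (by
    intro s t
    apply Subtype.ext
    apply huniq
    intro v
    have h1 := hfv (s * t).1 (s * t).2 v
    have h2 : ((s * t : T) : G) = (s : G) * (t : G) := rfl
    have h3 : (((s * t : T) : G)) * i v * (((s * t : T) : G))⁻¹ =
        (s : G) * ((t : G) * i v * (t : G)⁻¹) * (s : G)⁻¹ := by
      rw [h2]
      group
    rw [hfv t.1 t.2 v, hfv s.1 s.2] at h3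
    exact h1.symm.trans h3)
  refine ⟨θ, ?_, fun t v => hfv t.1 t.2 v⟩
  rintro ⟨σ, hσ⟩
  obtain ⟨t, ht, htv⟩ := hsur σ hσ
  refine ⟨⟨t, ht⟩, Subtype.ext (huniq _ _ fun v => ?_)⟩
  rw [← htv v]
  exact (hfv t ht v).symm

theorem mem_cent_range (i : V₀ →* G) (t : G) :
    t ∈ Subgroup.centralizer (i.range : Set G) ↔ ∀ v, t * i v * t⁻¹ = i v := by
  rw [Subgroup.mem_centralizer_iff]
  constructor
  · intro h v
    have h1 := h (i v) ⟨v, rfl⟩
    rw [← h1]
    group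
  · rintro h _ ⟨v, rfl⟩
    have h1 := h v
    rw [mul_inv_eq_iff_eq_mul] at h1
    exact h1.symm

theorem mem_Cu_iff (u t : G) : t ∈ Cu u ↔ t * u * t⁻¹ = u := by
  rw [Subgroup.mem_centralizer_iff]
  constructor
  · intro h
    rw [← h u rfl]
    group
  · rintro h x hx
    have hx' : x = u := hx
    rw [hx']
    rw [mul_inv_eq_iff_eq_mul] at h
    exact h.symm

theorem mem_Es {E₀ : Subgroup (MulAut V₀)} {c : V₀} {σ : MulAut V₀} :
    σ ∈ Es E₀ c ↔ σ ∈ E₀ ∧ σ c = c := Iff.rfl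

theorem Es_le (E₀ : Subgroup (MulAut V₀)) (c : V₀) : Es E₀ c ≤ E₀ := fun _ h => h.1

theorem nE_mul [Finite V₀] (E₀ : Subgroup (MulAut V₀)) (c : V₀) :
    (Es E₀ c).relIndex E₀ = nE E₀ c ∧ nE E₀ c * Nat.card (Es E₀ c) = Nat.card E₀ := by
  have hfin : Finite (MulAut V₀) :=
    Finite.of_injective (fun σ : MulAut V₀ => (σ : V₀ → V₀)) DFunLike.coe_injective
  have h1 := Subgroup.relIndex_mul_relIndex ⊥ (Es E₀ c) E₀ bot_le (Es_le E₀ c)
  rw [Subgroup.relIndex_bot_left, Subgroup.relIndex_bot_left] at h1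
  have hpos : 0 < Nat.card (Es E₀ c) := Nat.card_pos
  have h2 : nE E₀ c = (Es E₀ c).relIndex E₀ := by
    unfold nE
    rw [← h1]
    exact Nat.mul_div_cancel_left _ hpos
  refine ⟨h2.symm, ?_⟩
  rw [h2, mul_comm]
  exact h1

theorem Es_reg {E₀ : Subgroup (MulAut V₀)} {c : V₀} (h : Rgl E₀ c) : Es E₀ c = ⊥ := by
  rw [eq_bot_iff]
  intro σ hσ
  exact h.2 σ hσ.1 hσ.2

end gen

theorem hixe (hinx : K9.InxStmt) : HIxeStmt := by
  intro ℓ _ M _ hℓ V₀ _ _ E₀ G _ _ B hB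
  obtain ⟨θ, hθs, hθ⟩ := exists_hom B.i hB.inj E₀ (Tg B.i.range B.g) hB.act hB.sur
  have hker : (Subgroup.centralizer (B.i.range : Set G)).subgroupOf (Tg B.i.range B.g) = θ.ker := by
    ext t
    rw [Subgroup.mem_subgroupOf, mem_cent_range, MonoidHom.mem_ker]
    constructor
    · intro h
      apply Subtype.ext
      ext v
      apply hB.inj
      rw [← hθ t v, h v]
      rfl
    · intro h v
      rw [hθ t v, h]
      rfl
  have hix : ix B.i.range B.g = Nat.card E₀ := by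
    unfold ix Subgroup.relIndex
    rw [hker, Subgroup.index_ker, MonoidHom.range_eq_top.mpr hθs, Subgroup.card_top]
  refine ⟨hix, ?_, ?_, fun c => ⟨?_, (nE_mul E₀ c).2, fun hc => ?_, fun hc => ?_⟩⟩
  · rw [← hix]
    exact hinx ℓ M hℓ G B.e hB.ld.blk B.i.range hB.ld.tp hB.ld.ab B.g hB.ld.gam.supp hB.ld.gam.blk
      hB.ld.und
  · unfold Bk.C
    rw [MonoidHom.range_eq_map]
  · have hcm : (Cu (B.i c)).subgroupOf (Tg B.i.range B.g) = ((Es E₀ c).subgroupOf E₀).comap θ := by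
      ext t
      rw [Subgroup.mem_subgroupOf, mem_Cu_iff, hθ t c, Subgroup.mem_comap, Subgroup.mem_subgroupOf,
        mem_Es]
      constructor
      · intro h
        exact ⟨(θ t).2, hB.inj h⟩
      · intro h
        rw [h.2]
    rw [← (nE_mul E₀ c).1]
    unfold Subgroup.relIndex
    rw [hcm, Subgroup.index_comap_of_surjective _ hθs]
  · refine ⟨⟨c, rfl⟩, fun h => hc.1 (hB.inj (by rw [h, map_one])), fun t ht => ?_⟩
    have h1 : (θ ⟨t, ht.1⟩ : MulAut V₀) = 1 := by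
      apply hc.2 _ (θ ⟨t, ht.1⟩).2
      apply hB.inj
      rw [← hθ ⟨t, ht.1⟩ c]
      exact (mem_Cu_iff _ _).mp ht.2
    rw [mem_cent_range]
    intro v
    rw [hθ ⟨t, ht.1⟩ v, h1]
    rfl
  · unfold nE
    rw [Es_reg hc, Subgroup.card_bot, Nat.div_one]

end Pool.Agent.PP.SO.H32
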